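import Pool.Agent.Helper93.LCY.DVStmts

/-!
Row LIM: biderivations extend to the completion.
-/

open IsLocalRing

namespace LCY.H49

set_option linter.unusedSectionVars false

variable {O Q : Type} [CommRing O] [CommRing Q] [IsLocalRing O] [IsLocalRing Q]

theorem bd_zero_left {br : O → O → O} (h : IsBD br) (b : O) : br 0 b = 0 := by
  have := h.add_left 0 0 b
  rw [add_zero] at this
  simpa using this

theorem bd_add_right {br : O → O → O} (h : IsBD br) (a b c : O) :
    br a (b + c) = br a b + br a c := by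
  rw [h.skew a (b + c), h.add_left, h.skew a b, h.skew a c]
  ring

theorem bd_sub_left {br : O → O → O} (h : IsBD br) (a b c : O) :
    br (a - b) c = br a c - br b c := by
  have := h.add_left (a - b) b c
  rw [sub_add_cancel] at this
  rw [this]; ring

theorem bd_sub_right {br : O → O → O} (h : IsBD br) (a b c : O) :
    br a (b - c) = br a b - br a c := by
  rw [h.skew a (b - c), bd_sub_left h, h.skew a b, h.skew a c]
  ring

/-- A biderivation lowers the adic order by at most one. -/
theorem bd_pow {br : O → O → O} (h : IsBD br) (I : Ideal O) (n : ℕ) :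
    ∀ a ∈ I ^ (n + 1), ∀ c : O, br a c ∈ I ^ n := by
  induction n with
  | zero => intro a _ c; simp
  | succ n ih =>
    intro a ha c
    rw [pow_succ] at ha
    refine Submodule.mul_induction_on ha ?_ ?_
    · intro x hx y hy
      rw [h.mul_left]
      refine Ideal.add_mem _ (Ideal.mul_mem_right _ _ hx) ?_
      have h2 := Ideal.mul_mem_mul (ih x hx c) hy
      rw [← pow_succ, mul_comm] at h2
      exact h2
    · intro x y hx hy
      rw [h.add_left]
      exact Ideal.add_mem _ hx hy

theorem bd_pow_right {br : O → O → O} (h : IsBD br) (I : Ideal O) (n : ℕ) :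
    ∀ a ∈ I ^ (n + 1), ∀ c : O, br c a ∈ I ^ n := by
  intro a ha c
  rw [h.skew]
  exact (Ideal.neg_mem_iff _).mpr (bd_pow h I n a ha c)

/-- Comparison of two approximations. -/
theorem bd_cmp {ι : O →+* Q} (hd : Dense ι) {br : O → O → O} (h : IsBD br) (n : ℕ)
    (r s : Q) (a b a' b' : O)
    (ha : r - ι a ∈ maximalIdeal Q ^ (n + 1)) (hb : s - ι b ∈ maximalIdeal Q ^ (n + 1))
    (ha' : r - ι a' ∈ maximalIdeal Q ^ (n + 1)) (hb' : s - ι b' ∈ maximalIdeal Q ^ (n + 1)) :
    ι (br a b) - ι (br a' b') ∈ maximalIdeal Q ^ n := by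
  have h1 : a - a' ∈ maximalIdeal O ^ (n + 1) := by
    rw [← hd.mem, map_sub]
    have := Ideal.sub_mem _ ha' ha
    convert this using 1
    ring
  have h2 : b - b' ∈ maximalIdeal O ^ (n + 1) := by
    rw [← hd.mem, map_sub]
    have := Ideal.sub_mem _ hb' hb
    convert this using 1
    ring
  rw [← map_sub, hd.mem]
  have e : br a b - br a' b' = br (a - a') b + br a' (b - b') := by
    rw [bd_sub_left h, bd_sub_right h]; ring
  rw [e]
  exact Ideal.add_mem _ (bd_pow h _ n _ h1 _) (bd_pow_right h _ n _ h2 _)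

theorem eq_of_forall_pow {J : Ideal Q} (hc : IsAdicComplete J Q) (x y : Q)
    (h : ∀ n : ℕ, x - y ∈ J ^ n) : x = y := by
  have := hc.toIsHausdorff.haus (x - y) (fun n => by
    rw [SModEq.zero]
    simpa using h n)
  exact sub_eq_zero.mp this

theorem exists_lim {ι : O →+* Q} (hd : Dense ι) {br : O → O → O} (h : IsBD br) (r s : Q) :
    ∃ L : Q, ∀ (n : ℕ) (a b : O),
      r - ι a ∈ maximalIdeal Q ^ (n + 1) → s - ι b ∈ maximalIdeal Q ^ (n + 1) →
      L - ι (br a b) ∈ maximalIdeal Q ^ n := by
  choose A hA using fun n => hd.approx (n + 1) r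
  choose B hB using fun n => hd.approx (n + 1) s
  obtain ⟨L, hL⟩ := hd.compl.toIsPrecomplete.prec (f := fun n => ι (br (A n) (B n))) (by
    intro m n hmn
    rw [SModEq.sub_mem]
    simp only [smul_eq_mul, Ideal.mul_top]
    exact bd_cmp hd h m r s _ _ _ _ (hA m) (hB m)
      (Ideal.pow_le_pow_right (by omega) (hA n)) (Ideal.pow_le_pow_right (by omega) (hB n)))
  refine ⟨L, fun n a b ha hb => ?_⟩
  have h1 := hL n
  rw [SModEq.sub_mem] at h1
  simp only [smul_eq_mul, Ideal.mul_top] at h1
  have h2 := bd_cmp hd h n r s _ _ _ _ (hA n) (hB n) ha hb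
  have := Ideal.sub_mem _ h2 h1
  convert this using 1
  ring

theorem st_LIM : ST_LIM := by
  intro O Q _ _ _ _ ι hd br h
  choose brQ hQ using fun r s => exists_lim hd h r s
  refine ⟨brQ, ⟨?_, ?_, ?_, ?_⟩, fun n r s a b ha hb => hQ r s n a b ha hb⟩
  · intro a b c
    refine eq_of_forall_pow hd.compl _ _ fun n => ?_
    obtain ⟨a', ha⟩ := hd.approx (n + 1) a
    obtain ⟨b', hb⟩ := hd.approx (n + 1) b
    obtain ⟨c', hc⟩ := hd.approx (n + 1) c
    have h1 := hQ a c n a' c' ha hc
    have h2 := hQ b c n b' c' hb hc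
    have h3 := hQ (a + b) c n (a' + b') c' (by
      have := Ideal.add_mem _ ha hb
      convert this using 1
      rw [map_add]; ring) hc
    rw [h.add_left, map_add] at h3
    have := Ideal.sub_mem _ h3 (Ideal.add_mem _ h1 h2)
    convert this using 1
    ring
  · intro a b c
    refine eq_of_forall_pow hd.compl _ _ fun n => ?_
    obtain ⟨a', ha⟩ := hd.approx (n + 1) a
    obtain ⟨b', hb⟩ := hd.approx (n + 1) b
    obtain ⟨c', hc⟩ := hd.approx (n + 1) c
    have h1 := hQ a c n a' c' ha hc
    have h2 := hQ b c n b' c' hb hc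
    have h3 := hQ (a * b) c n (a' * b') c' (by
      have := Ideal.add_mem _ (Ideal.mul_mem_left _ b ha) (Ideal.mul_mem_left _ (ι a') hb)
      convert this using 1
      rw [map_mul]; ring) hc
    rw [h.mul_left, map_add, map_mul, map_mul] at h3
    have ha0 : a - ι a' ∈ maximalIdeal Q ^ n := Ideal.pow_le_pow_right (Nat.le_succ n) ha
    have hb0 : b - ι b' ∈ maximalIdeal Q ^ n := Ideal.pow_le_pow_right (Nat.le_succ n) hb
    have e1 := Ideal.mul_mem_left _ a h2
    have e2 := Ideal.mul_mem_left _ b h1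
    have e3 := Ideal.mul_mem_left _ (ι (br b' c')) ha0
    have e4 := Ideal.mul_mem_left _ (ι (br a' c')) hb0
    have := Ideal.sub_mem _ h3 (Ideal.add_mem _ (Ideal.add_mem _ e1 e2) (Ideal.add_mem _ e3 e4))
    convert this using 1
    ring
  · intro a
    refine eq_of_forall_pow hd.compl _ _ fun n => ?_
    obtain ⟨a', ha⟩ := hd.approx (n + 1) a
    have h1 := hQ a a n a' a' ha ha
    rw [h.alt, map_zero] at h1
    simpa using h1
  · intro a b
    refine eq_of_forall_pow hd.compl _ _ fun n => ?_
    obtain ⟨a', ha⟩ := hd.approx (n + 1) a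
    obtain ⟨b', hb⟩ := hd.approx (n + 1) b
    have h1 := hQ a b n a' b' ha hb
    have h2 := hQ b a n b' a' hb ha
    rw [h.skew, map_neg] at h1
    have := Ideal.add_mem _ h1 h2
    convert this using 1
    ring

end LCY.H49
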