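import Pool.Agent.Helper93.LCY.DVStmts

/-!
Row VH: valuations extend to the completion (the value infinity is allowed).
-/

open IsLocalRing

namespace LCY.H49

set_option linter.unusedSectionVars false

variable {O Q : Type} [CommRing O] [CommRing Q] [IsLocalRing O] [IsLocalRing Q]

/-- The hypotheses on `w`. -/
structure WV (w : O → ℕ∞) : Prop where
  mul : ∀ a b, w (a * b) = w a + w b
  add : ∀ a b, min (w a) (w b) ≤ w (a + b)
  max : ∀ a ∈ maximalIdeal O, 1 ≤ w a
  zero : w 0 = ⊤
  one : w 1 = 0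

theorem WV.neg_one {w : O → ℕ∞} (h : WV w) : w (-1) = 0 := by
  have h1 := h.mul (-1) (-1)
  rw [neg_mul_neg, one_mul, h.one] at h1
  have h2 : w (-1) ≤ w (-1) + w (-1) := le_self_add
  rw [← h1] at h2
  simpa using h2

theorem WV.neg {w : O → ℕ∞} (h : WV w) (a : O) : w (-a) = w a := by
  have := h.mul (-1) a
  rw [neg_one_mul, h.neg_one, zero_add] at this
  exact this

theorem WV.sub {w : O → ℕ∞} (h : WV w) (a b : O) : min (w a) (w b) ≤ w (a - b) := by
  have := h.add a (-b)
  rwa [h.neg, ← sub_eq_add_neg] at this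

theorem WV.pow {w : O → ℕ∞} (h : WV w) (n : ℕ) :
    ∀ a ∈ maximalIdeal O ^ n, (n : ℕ∞) ≤ w a := by
  induction n with
  | zero => intro a _; simp
  | succ n ih =>
    intro a ha
    rw [pow_succ] at ha
    refine Submodule.mul_induction_on ha ?_ ?_
    · intro x hx y hy
      rw [h.mul]
      push_cast
      exact add_le_add (ih x hx) (h.max y hy)
    · intro x y hx hy
      exact le_trans (le_min hx hy) (h.add x y)

/-- Two elements whose difference is small: if one value is below the precision, the values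
agree. -/
theorem WV.eq_of_lt {w : O → ℕ∞} (h : WV w) {a b : O} {k : ℕ∞} (hab : k ≤ w (a - b))
    (ha : w a < k) : w a = w b := by
  have h1 : min (w a) (w (a - b)) ≤ w b := by
    have := h.sub a (a - b)
    rwa [sub_sub_cancel] at this
  have h2 : min (w b) (w (a - b)) ≤ w a := by
    have := h.add b (a - b)
    rwa [add_sub_cancel] at this
  have h3 : w a < w (a - b) := lt_of_lt_of_le ha hab
  rw [min_eq_left h3.le] at h1
  rcases min_le_iff.mp h2 with h4 | h4
  · exact le_antisymm h1 h4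
  · exact absurd h4 (not_le.mpr h3)

variable {ι : O →+* Q}

open Classical in
/-- The extended valuation. -/
noncomputable def vh (ι : O →+* Q) (w : O → ℕ∞) (r : Q) : ℕ∞ :=
  if h : ∃ p : ℕ × O, r - ι p.2 ∈ maximalIdeal Q ^ p.1 ∧ w p.2 < (p.1 : ℕ∞) then
    w h.choose.2 else ⊤

theorem sub_mem_of (hd : Dense ι) {r : Q} {a b : O} {n k : ℕ}
    (ha : r - ι a ∈ maximalIdeal Q ^ n) (hb : r - ι b ∈ maximalIdeal Q ^ k) :
    a - b ∈ maximalIdeal O ^ (min n k) := by
  rw [← hd.mem, map_sub]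
  have := Ideal.sub_mem _ (Ideal.pow_le_pow_right (min_le_right n k) hb)
    (Ideal.pow_le_pow_right (min_le_left n k) ha)
  convert this using 1
  ring

theorem val_unique (hd : Dense ι) {w : O → ℕ∞} (h : WV w) {r : Q} {a b : O} {n k : ℕ}
    (ha : r - ι a ∈ maximalIdeal Q ^ n) (hwa : w a < n)
    (hb : r - ι b ∈ maximalIdeal Q ^ k) (hwb : w b < k) : w a = w b := by
  have h1 := h.pow _ _ (sub_mem_of hd ha hb)
  have h1' : ((min n k : ℕ) : ℕ∞) ≤ w (b - a) := by
    rw [← h.neg, neg_sub]; exact h1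
  rcases le_total n k with hnk | hnk
  · rw [min_eq_left hnk] at h1
    exact h.eq_of_lt h1 hwa
  · rw [min_eq_right hnk] at h1'
    exact (h.eq_of_lt h1' hwb).symm

theorem vh_eq (hd : Dense ι) {w : O → ℕ∞} (h : WV w) {n : ℕ} {r : Q} {a : O}
    (ha : r - ι a ∈ maximalIdeal Q ^ n) (hwa : w a < n) : vh ι w r = w a := by
  have hex : ∃ p : ℕ × O, r - ι p.2 ∈ maximalIdeal Q ^ p.1 ∧ w p.2 < (p.1 : ℕ∞) :=
    ⟨(n, a), ha, hwa⟩
  unfold vh
  rw [dif_pos hex]
  exact val_unique hd h hex.choose_spec.1 hex.choose_spec.2 ha hwa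

theorem vh_cases (hd : Dense ι) {w : O → ℕ∞} (h : WV w) (r : Q) :
    (∃ (n : ℕ) (a : O), r - ι a ∈ maximalIdeal Q ^ n ∧ w a < n ∧ vh ι w r = w a) ∨
    (vh ι w r = ⊤ ∧ ∀ (n : ℕ) (a : O), r - ι a ∈ maximalIdeal Q ^ n → (n : ℕ∞) ≤ w a) := by
  by_cases hex : ∃ p : ℕ × O, r - ι p.2 ∈ maximalIdeal Q ^ p.1 ∧ w p.2 < (p.1 : ℕ∞)
  · obtain ⟨⟨n, a⟩, ha, hwa⟩ := hex
    exact Or.inl ⟨n, a, ha, hwa, vh_eq hd h ha hwa⟩
  · right
    refine ⟨by unfold vh; rw [dif_neg hex], fun n a ha => ?_⟩
    by_contra hlt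
    exact hex ⟨(n, a), ha, not_le.mp hlt⟩

/-- If `k ≤ vh r`, every approximation of `r` to precision `N` has value at least
`min k N`. -/
theorem le_of_approx (hd : Dense ι) {w : O → ℕ∞} (h : WV w) {r : Q} {N : ℕ} {a : O}
    (ha : r - ι a ∈ maximalIdeal Q ^ N) : min (vh ι w r) (N : ℕ∞) ≤ w a := by
  by_cases hN : w a < (N : ℕ∞)
  · rw [vh_eq hd h ha hN]; exact min_le_left _ _
  · exact le_trans (min_le_right _ _) (not_lt.mp hN)

/-- If `w a` is at least `min k N` for some approximation to precision `N` with `k < N`, then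
`k ≤ vh r`. -/
theorem le_vh (hd : Dense ι) {w : O → ℕ∞} (h : WV w) {r : Q} {k : ℕ}
    (H : ∀ n : ℕ, ∃ a : O, r - ι a ∈ maximalIdeal Q ^ n ∧ min (k : ℕ∞) n ≤ w a) :
    (k : ℕ∞) ≤ vh ι w r := by
  rcases vh_cases hd h r with ⟨n, c, hc, hwc, he⟩ | ⟨he, _⟩
  · rw [he]
    obtain ⟨a, ha, hka⟩ := H n
    by_contra hlt
    push Not at hlt
    have h1 := h.pow _ _ (sub_mem_of hd hc ha)
    rw [min_self] at h1
    have h2 := h.eq_of_lt h1 hwc
    rw [← h2] at hka
    exact absurd hka (not_le.mpr (lt_min hlt hwc))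
  · rw [he]; exact le_top

theorem vh_top (hd : Dense ι) {w : O → ℕ∞} (h : WV w) {r : Q}
    (H : ∀ n : ℕ, ∃ a : O, r - ι a ∈ maximalIdeal Q ^ n ∧ (n : ℕ∞) ≤ w a) :
    vh ι w r = ⊤ := by
  refine ENat.eq_top_iff_forall_ge.mpr fun k => ?_
  refine le_vh hd h fun n => ?_
  obtain ⟨a, ha, hna⟩ := H n
  exact ⟨a, ha, le_trans (min_le_right _ _) hna⟩

theorem st_VH : ST_VH := by
  intro O Q _ _ _ _ ι hd w hmul hadd hmax h0 h1
  have h : WV w := ⟨hmul, hadd, hmax, h0, h1⟩
  refine ⟨vh ι w, ?_, ?_, ?_, ?_, fun n r a ha hwa => vh_eq hd h ha hwa⟩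
  · -- products
    have key : ∀ (n : ℕ) (r s : Q) (a b : O), r - ι a ∈ maximalIdeal Q ^ n →
        s - ι b ∈ maximalIdeal Q ^ n → r * s - ι (a * b) ∈ maximalIdeal Q ^ n := by
      intro n r s a b ha hb
      have := Ideal.add_mem _ (Ideal.mul_mem_left _ s ha) (Ideal.mul_mem_left _ (ι a) hb)
      convert this using 1
      rw [map_mul]; ring
    have htop : ∀ r s : Q, vh ι w r = ⊤ → vh ι w (r * s) = ⊤ := by
      intro r s hr
      refine vh_top hd h fun n => ?_
      obtain ⟨a, ha⟩ := hd.approx n r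
      obtain ⟨b, hb⟩ := hd.approx n s
      refine ⟨a * b, key n r s a b ha hb, ?_⟩
      have h2 := le_of_approx hd h ha
      rw [hr, min_eq_right le_top] at h2
      rw [hmul]
      exact le_trans h2 le_self_add
    intro r s
    rcases vh_cases hd h r with ⟨n, a, ha, hwa, hr⟩ | ⟨hr, _⟩
    · rcases vh_cases hd h s with ⟨k, b, hb, hwb, hs⟩ | ⟨hs, _⟩
      · -- both finite
        have ha' : w a ≠ ⊤ := ne_top_of_lt hwa
        have hb' : w b ≠ ⊤ := ne_top_of_lt hwb
        lift w a to ℕ using ha' with i hi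
        lift w b to ℕ using hb' with j hj
        have hin : i < n := by exact_mod_cast hwa
        have hjk : j < k := by exact_mod_cast hwb
        set N := n + k + i + j + 1 with hN
        obtain ⟨c, hc⟩ := hd.approx N r
        obtain ⟨d, hd'⟩ := hd.approx N s
        have e1 : w a = w c := by
          have h2 := h.pow _ _ (sub_mem_of hd ha hc)
          rw [min_eq_left (by omega)] at h2
          exact h.eq_of_lt h2 (by rw [← hi]; exact_mod_cast hin)
        have e2 : w b = w d := by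
          have h2 := h.pow _ _ (sub_mem_of hd hb hd')
          rw [min_eq_left (by omega)] at h2
          exact h.eq_of_lt h2 (by rw [← hj]; exact_mod_cast hjk)
        have e3 : w (c * d) = ((i + j : ℕ) : ℕ∞) := by
          rw [hmul, ← e1, ← e2, ← hi, ← hj]; push_cast; rfl
        rw [vh_eq hd h (key N r s c d hc hd') (by rw [e3]; exact_mod_cast (by omega)), hr, hs, e3]
        push_cast; rfl
      · rw [hs, mul_comm, htop s r hs, add_top]
    · rw [hr, htop r s hr, top_add]
  · -- sums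
    intro r s
    refine ENat.forall_natCast_le_iff_le.mp fun k hk => ?_
    rw [le_min_iff] at hk
    refine le_vh hd h fun n => ?_
    obtain ⟨a, ha⟩ := hd.approx n r
    obtain ⟨b, hb⟩ := hd.approx n s
    refine ⟨a + b, ?_, ?_⟩
    · have := Ideal.add_mem _ ha hb
      convert this using 1
      rw [map_add]; ring
    · refine le_trans ?_ (hadd a b)
      refine le_min ?_ ?_
      · exact le_trans (min_le_min_right _ hk.1) (le_of_approx hd h ha)
      · exact le_trans (min_le_min_right _ hk.2) (le_of_approx hd h hb)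
  · -- restriction
    intro a
    by_cases ha : w a = ⊤
    · rw [ha]
      exact vh_top hd h fun n => ⟨a, by simp, by rw [ha]; exact le_top⟩
    · lift w a to ℕ using ha with i hi
      rw [hi]
      exact vh_eq hd h (n := i + 1) (by simp) (by rw [← hi]; exact_mod_cast Nat.lt_succ_self i)
  · -- powers of the maximal ideal
    intro n r hr
    refine le_vh hd h fun k => ?_
    obtain ⟨a, ha⟩ := hd.approx k r
    refine ⟨a, ha, ?_⟩
    have h2 := sub_mem_of hd (r := r) (a := a) (b := 0) (n := k) (k := n) ha (by simpa using hr)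
    rw [sub_zero] at h2
    have h3 := h.pow _ _ h2
    rw [min_comm] at h3
    exact_mod_cast h3

end LCY.H49
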